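import Mathlib
import Pool.Agent.helper7.IG.Stmt1

/-!
# IG, module PSI: the modular equation modulo 2
-/

set_option autoImplicit false

open Polynomial UpperHalfPlane
open scoped MatrixGroups

noncomputable section

namespace Pool.Agent.helper7.IG

lemma psi_ofPS_coeff (f : PowerSeries kk) (n : ℤ) :
    (HahnSeries.ofPowerSeries ℤ kk f).coeff n =
      if 0 ≤ n then PowerSeries.coeff n.toNat f else 0 := by
  have h : HahnSeries.ofPowerSeries ℤ kk f = ps (fun n => PowerSeries.coeff n f) := by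
    unfold ps
    congr 1
    ext n
    rw [PowerSeries.coeff_mk]
  rw [h, ps_coeff]

lemma psi_sig_ofPS (p : ℕ) (hp : p ≠ 0) (f : PowerSeries kk) :
    sig p 1 (HahnSeries.ofPowerSeries ℤ kk f) =
      HahnSeries.ofPowerSeries ℤ kk (PowerSeries.expand p hp f) := by
  ext n
  rw [sig_coeff hp, psi_ofPS_coeff, psi_ofPS_coeff]
  have hp0 : (0 : ℤ) < p := by exact_mod_cast Nat.pos_of_ne_zero hp
  by_cases hn : 0 ≤ n
  · obtain ⟨m, rfl⟩ := Int.eq_ofNat_of_zero_le hn
    rw [if_pos hn, Int.toNat_natCast, PowerSeries.coeff_expand]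
    have h1 : ((p : ℤ) ∣ (m : ℤ)) ↔ p ∣ m := Int.natCast_dvd_natCast
    by_cases h : p ∣ m
    · rw [if_pos h, if_pos (h1.mpr h)]
      have h2 : ((m : ℤ) / (p : ℤ)) = ((m / p : ℕ) : ℤ) := by push_cast; rfl
      rw [h2, if_pos (by positivity), Int.toNat_natCast, one_zpow]
      simp
    · rw [if_neg h, if_neg (fun h' => h (h1.mp h'))]
  · rw [if_neg hn]
    split_ifs with h h'
    · exfalso
      obtain ⟨m, rfl⟩ := h
      rw [Int.mul_ediv_cancel_left _ hp0.ne'] at h'
      exact hn (by positivity)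
    · simp
    · rfl

lemma psi_sig_one_ofPS (ζ : kkˣ) (f : PowerSeries kk) :
    sig 1 ζ (HahnSeries.ofPowerSeries ℤ kk f) =
      HahnSeries.ofPowerSeries ℤ kk (PowerSeries.rescale (ζ : kk) f) := by
  ext n
  rw [sig_coeff one_ne_zero, psi_ofPS_coeff, psi_ofPS_coeff]
  rw [if_pos (by simp)]
  simp only [Nat.cast_one, Int.ediv_one]
  by_cases hn : 0 ≤ n
  · obtain ⟨m, rfl⟩ := Int.eq_ofNat_of_zero_le hn
    rw [if_pos hn, if_pos hn, Int.toNat_natCast, PowerSeries.coeff_rescale]
    simp
  · rw [if_neg hn, if_neg hn, mul_zero]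

/-- The reduction map composed with `q ↦ q ^ p`. -/
def psiTau (p : ℕ) (hp : p ≠ 0) : PowerSeries ℤ →+* LL :=
  ((HahnSeries.ofPowerSeries ℤ kk).comp (PowerSeries.expand p hp).toRingHom).comp
    (PowerSeries.map (Int.castRingHom kk))

lemma psi_map_DZ : HahnSeries.ofPowerSeries ℤ kk (PowerSeries.map (Int.castRingHom kk) DZ) =
    im2 Pool.Agent.helper12.PE.DD := by
  have h1 : (Int.castRingHom kk) = (algebraMap (ZMod 2) kk).comp (Int.castRingHom (ZMod 2)) :=
    RingHom.ext_int _ _
  have h2 : PowerSeries.map (Int.castRingHom kk) DZ =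
      PowerSeries.map (algebraMap (ZMod 2) kk)
        (PowerSeries.map (Int.castRingHom (ZMod 2)) DZ) := by
    rw [h1]
    ext n
    simp only [PowerSeries.coeff_map, RingHom.comp_apply]
  rw [h2]
  have h3 : PowerSeries.map (Int.castRingHom (ZMod 2)) DZ = Pool.Agent.helper12.PE.DD :=
    Pool.Agent.helper12.PE.map_disc
  rw [h3]
  rfl

lemma psi_span (i : ℕ) (x : PowerSeries (ZMod 2))
    (hx : x ∈ Submodule.span (ZMod 2)
      (Set.range fun j : Fin (i + 1) => Pool.Agent.helper12.PE.DD ^ (j : ℕ))) :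
    ∃ Q : Polynomial (ZMod 2), Q.natDegree ≤ i ∧ aeval Pool.Agent.helper12.PE.DD Q = x := by
  induction hx using Submodule.span_induction with
  | mem x hx =>
    obtain ⟨j, rfl⟩ := hx
    refine ⟨X ^ (j : ℕ), ?_, by simp⟩
    rw [natDegree_X_pow]
    have := j.2
    omega
  | zero => exact ⟨0, by simp, by simp⟩
  | add x y _ _ hx hy =>
    obtain ⟨Q1, h1, h1'⟩ := hx
    obtain ⟨Q2, h2, h2'⟩ := hy
    exact ⟨Q1 + Q2, (natDegree_add_le _ _).trans (max_le h1 h2), by rw [map_add, h1', h2']⟩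
  | smul a x _ hx =>
    obtain ⟨Q1, h1, h1'⟩ := hx
    exact ⟨a • Q1, (natDegree_smul_le _ _).trans h1, by rw [map_smul, h1']⟩

lemma psi_coeff (hMB1 : MB1_stmt) (hMB2 : MB2_stmt) (hMB3 : MB3_stmt) (p : ℕ) (hp : p ≠ 0)
    (hpp : p.Prime) (i : ℕ) (hi : i ≤ p + 1) :
    ∃ Q : Polynomial (ZMod 2), Q.natDegree ≤ i ∧ aeval Pool.Agent.helper12.PE.DD Q =
      PowerSeries.map (Int.castRingHom (ZMod 2)) ((PhiZ p hp).coeff (p + 1 - i)) := by
  obtain ⟨h1, h2, h3⟩ := hMB2 p i hpp hi
  obtain ⟨F, hF⟩ := hMB1 (12 * i) (GG p i)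
    (fun n => (((PowerSeries.coeff n ((PhiZ p hp).coeff (p + 1 - i)) : ℤ)) : ℂ)) h1 h2 h3
    (hMB3 p i hp hpp hi)
  apply psi_span
  refine Pool.Agent.helper12.PE.integral_form_mod_two i F _ ?_
  ext n
  rw [hF, PowerSeries.coeff_map, eq_intCast]

theorem PSI_of (hMA : MA_stmt) (hMB1 : MB1_stmt) (hMB2 : MB2_stmt) (hMB3 : MB3_stmt)
    (hF1 : F1_stmt) : PSI_stmt := by
  intro p hpp hp2
  have hp : p ≠ 0 := hpp.ne_zero
  have hDD : im2 Pool.Agent.helper12.PE.DD = DDk := hF1.1
  -- the charpoly is monic of degree p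
  have hmon1 : (mulMat p DZ).charpoly.Monic := Matrix.charpoly_monic _
  have hdeg1 : (mulMat p DZ).charpoly.natDegree = p := by
    rw [Matrix.charpoly_natDegree_eq_dim, Fintype.card_fin]
  have hmon : (PhiZ p hp).Monic := hmon1.mul (monic_X_sub_C _)
  have hdeg : (PhiZ p hp).natDegree = p + 1 := by
    unfold PhiZ
    rw [hmon1.natDegree_mul (monic_X_sub_C _), hdeg1, natDegree_X_sub_C]
  -- choice of the coefficients
  have hQ : ∀ k : ℕ, ∃ Q : Polynomial (ZMod 2), Q.natDegree ≤ p + 1 - k ∧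
      aeval Pool.Agent.helper12.PE.DD Q =
        PowerSeries.map (Int.castRingHom (ZMod 2)) ((PhiZ p hp).coeff k) ∧
      (k = p + 1 → Q = 1) := by
    intro k
    rcases lt_trichotomy k (p + 1) with hk | hk | hk
    · obtain ⟨Q, h1, h2⟩ := psi_coeff hMB1 hMB2 hMB3 p hp hpp (p + 1 - k) (by omega)
      refine ⟨Q, h1, ?_, fun h => absurd h (by omega)⟩
      rw [h2]
      congr 2
      omega
    · refine ⟨1, by simp, ?_, fun _ => rfl⟩
      have : (PhiZ p hp).coeff k = 1 := by
        rw [hk, ← hdeg]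
        exact hmon
      rw [this, map_one, map_one]
    · refine ⟨0, by simp, ?_, fun h => absurd h (by omega)⟩
      rw [coeff_eq_zero_of_natDegree_lt (by omega), map_zero, map_zero]
  choose Q hQ1 hQ2 hQ3 using hQ
  set φ : ZMod 2 →+* kk := algebraMap (ZMod 2) kk with hφ
  set Ψ : Polynomial (Polynomial kk) :=
    ∑ k ∈ Finset.range (p + 2), monomial k ((Q k).map φ) with hΨ
  have hcoeff : ∀ k, Ψ.coeff k = if k < p + 2 then (Q k).map φ else 0 := by
    intro k
    rw [hΨ, finset_sum_coeff]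
    simp only [coeff_monomial]
    rw [Finset.sum_ite_eq']
    simp only [Finset.mem_range]
  have hnd : Ψ.natDegree = p + 1 := by
    apply le_antisymm
    · rw [natDegree_le_iff_coeff_eq_zero]
      intro N hN
      rw [hcoeff, if_neg (by omega)]
    · apply le_natDegree_of_ne_zero
      rw [hcoeff, if_pos (by omega), hQ3 _ rfl]
      simp
  refine ⟨Ψ, ?_, hnd, ?_, ?_⟩
  · unfold Monic leadingCoeff
    rw [hnd, hcoeff, if_pos (by omega), hQ3 _ rfl]
    simp
  · intro i
    rw [hcoeff]
    split_ifs with h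
    · exact natDegree_map_le.trans (hQ1 i)
    · simp
  · intro ω hω
    have hω' : IsPrimitiveRoot (ω : kk) p := IsPrimitiveRoot.coe_units_iff.mpr hω
    -- compare the coefficients
    have key : Ψ.map (Polynomial.aeval (R := kk) (sig p 1 DDk)).toRingHom =
        (PhiZ p hp).map (psiTau p hp) := by
      ext1 k
      rw [coeff_map, coeff_map, hcoeff]
      have hk : aeval (sig p 1 DDk) ((Q k).map φ) =
          psiTau p hp ((PhiZ p hp).coeff k) := by
        have e1 : aeval (sig p 1 DDk) ((Q k).map φ) = sig p 1 (aeval DDk ((Q k).map φ)) := by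
          rw [← Polynomial.aeval_algHom_apply]
        have e2 : aeval DDk ((Q k).map φ) = im2 (aeval Pool.Agent.helper12.PE.DD (Q k)) := by
          rw [← hDD, aeval_def, aeval_def, eval₂_map, hom_eval₂]
          congr 1
          exact Subsingleton.elim _ _
        rw [e1, e2, hQ2]
        unfold psiTau im2
        simp only [RingHom.comp_apply]
        rw [psi_sig_ofPS p hp]
        congr 2
      split_ifs with h
      · exact hk
      · rw [coeff_eq_zero_of_natDegree_lt (by omega), map_zero, map_zero]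
    rw [key]
    unfold PhiZ
    rw [Polynomial.map_mul, mul_comm]
    have hc2 : ((p : kk)) = 1 := by
      obtain ⟨m, hm⟩ := hpp.odd_of_ne_two hp2
      rw [hm]
      push_cast
      have : (2 : kk) = 0 := CharTwo.two_eq_zero
      rw [this]; simp
    congr 1
    · rw [Polynomial.map_sub, map_X, map_C]
      congr 2
      unfold psiTau
      simp only [RingHom.comp_apply, map_mul, map_pow, map_natCast]
      have hc3 : ((p : LL)) = 1 := by
        have := congrArg (algebraMap kk LL) hc2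
        simpa using this
      rw [hc3, one_pow, one_mul]
      rw [← hDD, ← psi_map_DZ, psi_sig_ofPS _ (Nat.mul_ne_zero hp hp), PowerSeries.expand_mul,
        PowerSeries.map_expand]
      rfl
    · have hm1 : (mulMat p DZ).charpoly.map (psiTau p hp) =
          (((mulMat p DZ).charpoly.map (PowerSeries.map (Int.castRingHom kk))).map
            (PowerSeries.expand p hp).toRingHom).map (HahnSeries.ofPowerSeries ℤ kk) := by
        rw [Polynomial.map_map, Polynomial.map_map]
        rfl
      rw [hm1, hMA.1, hMA.2 kk p hp (ω : kk) _ hω', Polynomial.map_prod]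
      refine Finset.prod_congr rfl fun j _ => ?_
      rw [Polynomial.map_sub, map_X, map_C]
      congr 2
      rw [← hDD, ← psi_map_DZ, psi_sig_one_ofPS]
      simp

end Pool.Agent.helper7.IG
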